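import Mathlib
import Pool.Agent.H482.RG.R7

/-!
Primes with a prescribed least primitive root.
-/

set_option autoImplicit false

open Finset Filter

namespace Pool.Agent.H482.LP

open Pool.Agent.H482.RG
open Pool.Agent.Y855 (MIf)

/-- `g` is the least positive primitive root modulo `p` -/
def Least (g p : ℕ) : Prop :=
  orderOf (g : ZMod p) = p - 1 ∧ ∀ h : ℕ, 0 < h → h < g → orderOf (h : ZMod p) ≠ p - 1

open Classical in
/-- the primes `p ≤ x`, `p ≡ a mod M`, with the least primitive root `g` -/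
noncomputable def SS (g M a x : ℕ) : Finset ℕ :=
  (Icc 1 x).filter (fun p => p.Prime ∧ p ≡ a [MOD M] ∧ Least g p)

/-- many primes `p ≡ a mod M` have the least primitive root `g` -/
def Many (g M a : ℕ) : Prop :=
  ∃ δ : ℝ, 0 < δ ∧ ∀ X : ℕ, ∃ x : ℕ, X ≤ x ∧ δ * (x / (Real.log x) ^ 2) ≤ ((SS g M a x).card : ℝ)

theorem MIf_primes : ∀ (k : ℕ) (q : Fin k → ℕ), (∀ i, (q i).Prime) → Function.Injective q →
    MIf (fun i => (q i : ℤ)) := by
  intro k
  induction k with
  | zero => intro q _ _ e _ i; exact i.elim0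
  | succ k ih =>
    intro q hq hinj
    apply MIf_cons _ (fun i => by exact_mod_cast (hq i).ne_zero)
      (ih (fun i => q i.succ) (fun i => hq _) (fun i j h => Fin.succ_injective _ (hinj h)))
      (q 0) (hq 0)
    · rw [Int.natAbs_natCast]
    · intro i h
      rw [Int.natAbs_natCast] at h
      have h1 := (Nat.prime_dvd_prime_iff_eq (hq 0) (hq i.succ)).1 h
      exact absurd (hinj h1) (Fin.succ_ne_zero i).symm

/-- the only nonresidues below `2 y` are the elements of `Q` -/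
theorem nonres (y p₀ : ℕ) (Q : Finset ℕ) (hQ : ∀ q ∈ Q, y ≤ q)
    (h : ∀ r : ℕ, r.Prime → r < 2 * y → r ∉ Q → jacobiSym r p₀ = 1) :
    ∀ g : ℕ, 0 < g → g < 2 * y → jacobiSym g p₀ = -1 → g ∈ Q := by
  intro g
  induction g using Nat.strong_induction_on with
  | _ g ih =>
    intro h0 hg hj
    by_cases h1 : g = 1
    · rw [h1, Nat.cast_one, jacobiSym.one_left] at hj
      norm_num at hj
    obtain ⟨r, hr, m, hm⟩ : ∃ r : ℕ, r.Prime ∧ ∃ m, g = r * m := by
      obtain ⟨r, hr, hrg⟩ := Nat.exists_prime_and_dvd h1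
      exact ⟨r, hr, hrg⟩
    have hm0 : 0 < m := by
      rcases Nat.eq_zero_or_pos m with h2 | h2
      · rw [h2] at hm; omega
      · exact h2
    have hr2 := hr.two_le
    have hrg : r < 2 * y := lt_of_le_of_lt (by rw [hm]; exact Nat.le_mul_of_pos_right r hm0) hg
    by_cases hrQ : r ∈ Q
    · have h3 := hQ r hrQ
      have h4 : m < 2 := by
        by_contra hcon
        have : y * 2 ≤ r * m := Nat.mul_le_mul h3 (by omega)
        omega
      have h5 : m = 1 := by omega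
      rw [hm, h5, mul_one]
      exact hrQ
    · have h3 := h r hr hrg hrQ
      rw [hm, Nat.cast_mul, jacobiSym.mul_left, h3, one_mul] at hj
      have hmg : m < g := by rw [hm]; nlinarith
      have h4 := ih m hmg hm0 (by omega) hj
      have h5 := hQ m h4
      have : 2 * y ≤ r * m := Nat.mul_le_mul hr2 h5
      omega

/-- a class for the primes in which the nonresidues below `2 y` are the elements of `Q` -/
theorem exists_cls (y M a : ℕ) (Q : Finset ℕ) (hQp : ∀ q ∈ Q, q.Prime) (hQ5 : ∀ q ∈ Q, 5 ≤ q)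
    (hQy : ∀ q ∈ Q, y ≤ q ∧ q < 2 * y) (hM0 : M ≠ 0) (hMy : ∀ r : ℕ, r.Prime → r ∣ M → 2 * y ≤ r)
    (hM5 : ∀ r : ℕ, r.Prime → r ∣ M → 5 ≤ r)
    (haM : a.Coprime M) (haq : ∀ r : ℕ, r.Prime → r ∣ M → a % r ≠ 1) :
    ∃ A m : ℕ, Allowed A m ∧ 24 ∣ m ∧ A % 8 = 7 ∧ ∀ p : ℕ, p.Prime → p ≡ A [MOD m] →
      p % 8 = 7 ∧ p ≡ a [MOD M] ∧ (∀ q ∈ Q, jacobiSym q p = -1) ∧
      ∀ g : ℕ, 0 < g → g < 2 * y → jacobiSym g p = -1 → g ∈ Q := by
  classical
  -- the model prime
  set P : Finset ℕ := (range (2 * y)).filter (fun r => r.Prime ∧ r ≠ 2) with hP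
  have hPm : ∀ r, r ∈ P ↔ r < 2 * y ∧ r.Prime ∧ r ≠ 2 := by
    intro r
    rw [hP, mem_filter, mem_range]
  set S : Finset ℕ := insert 3 P with hS
  have hSp : ∀ r ∈ S, r.Prime ∧ r ≠ 2 := by
    intro r hr
    rw [hS, mem_insert] at hr
    rcases hr with rfl | hr
    · exact ⟨Nat.prime_three, by norm_num⟩
    · exact ((hPm r).1 hr).2
  have hv : ∀ r : ℕ, ∃ v : ℕ, r ∈ S → v.Coprime r ∧ (r = 3 → v = 2) ∧ (r ≠ 3 →
      jacobiSym v r = (if r ∈ Q then -1 else 1) * (if r % 4 = 3 then -1 else 1)) := by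
    intro r
    by_cases hr : r ∈ S
    · by_cases hr3 : r = 3
      · exact ⟨2, fun _ => ⟨by rw [hr3]; decide, fun _ => rfl, fun h => absurd hr3 h⟩⟩
      · obtain ⟨v, hv1, hv2⟩ := exists_sign r (hSp r hr).1 (hSp r hr).2
          ((if r ∈ Q then -1 else 1) * (if r % 4 = 3 then -1 else 1)) (by split_ifs <;> norm_num)
        exact ⟨v, fun _ => ⟨hv1, fun h => absurd h hr3, fun _ => hv2⟩⟩
    · exact ⟨0, fun h => absurd h hr⟩
  choose v hv using hv
  obtain ⟨p₀, hp₀, hp₀8, hp₀S⟩ := exists_prime_classes 7 (by norm_num) S hSp v (fun q hq => (hv q hq).1)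
  have hp₀4 : p₀ % 4 = 3 := by omega
  have hp₀o : Odd p₀ := by rw [Nat.odd_iff]; omega
  have hp₀3 : p₀ ≡ 2 [MOD 3] := by
    have h1 := hp₀S 3 (mem_insert_self _ _)
    rwa [(hv 3 (mem_insert_self _ _)).2.1 rfl] at h1
  -- its symbols
  have hsym : ∀ r ∈ P, r ≠ 3 → jacobiSym r p₀ = if r ∈ Q then -1 else 1 := by
    intro r hr hr3
    have hrS : r ∈ S := mem_insert_of_mem hr
    have hro : Odd r := (hSp r hrS).1.odd_of_ne_two (hSp r hrS).2
    have h1 := (hv r hrS).2.2 hr3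
    have h2 : jacobiSym p₀ r = jacobiSym (v r) r := jac_of_modEq (hp₀S r hrS)
    rw [h1] at h2
    have hr4 : r % 4 = 1 ∨ r % 4 = 3 := by
      rw [Nat.odd_iff] at hro
      omega
    rcases hr4 with h4 | h4
    · rw [if_neg (by omega : ¬ r % 4 = 3), mul_one] at h2
      rw [← h2, jacobiSym.quadratic_reciprocity_one_mod_four h4 hp₀o]
    · rw [if_pos h4] at h2
      rw [jacobiSym.quadratic_reciprocity_three_mod_four h4 hp₀4, h2]
      ring
  have h3 : jacobiSym 3 p₀ = 1 := by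
    have e : ((3 : ℕ) : ℤ) = 3 := rfl
    rw [← e, jacobiSym.quadratic_reciprocity_three_mod_four (by norm_num) hp₀4,
      jac_of_modEq hp₀3]
    have e3 : jacobiSym ((2 : ℕ) : ℤ) 3 = -1 := by
      push_cast
      norm_num
    rw [e3]
    norm_num
  have h2 : jacobiSym 2 p₀ = 1 := by
    rw [jacobiSym.at_two hp₀o, ZMod.χ₈_nat_eq_if_mod_eight]
    rw [if_neg (by omega), if_pos (by omega)]
  have hres : ∀ r : ℕ, r.Prime → r < 2 * y → r ∉ Q → jacobiSym r p₀ = 1 := by
    intro r hr hry hrQ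
    by_cases hr2 : r = 2
    · rw [hr2]; exact h2
    by_cases hr3 : r = 3
    · rw [hr3]; exact h3
    have h4 := hsym r ((hPm r).2 ⟨hry, hr, hr2⟩) hr3
    rwa [if_neg hrQ] at h4
  have hnon : ∀ q ∈ Q, jacobiSym q p₀ = -1 := by
    intro q hq
    have h4 := hsym q ((hPm q).2 ⟨(hQy q hq).2, hQp q hq, by have := hQ5 q hq; omega⟩)
      (by have := hQ5 q hq; omega)
    rwa [if_pos hq] at h4
  have hnr := nonres y p₀ Q (fun q hq => (hQy q hq).1) hres
  -- the class
  set G : Finset ℕ := P.erase 3 with hG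
  have hGm : ∀ q ∈ G, q.Prime ∧ 5 ≤ q ∧ q < 2 * y ∧ p₀.Coprime q := by
    intro q hq
    rw [hG, mem_erase, hPm] at hq
    obtain ⟨hq3, hqy, hqp, hq2⟩ := hq
    refine ⟨hqp, ?_, hqy, ?_⟩
    · have h4 := hqp.two_le
      have h5 : q ≠ 4 := by rintro rfl; exact absurd hqp (by norm_num)
      omega
    · rw [Nat.coprime_primes hp₀ hqp]
      rintro rfl
      have h4 : jacobiSym (p₀ : ℤ) p₀ = 0 := by
        rw [jacobiSym.eq_zero_iff]
        refine ⟨hp₀.ne_zero, ?_⟩
        rw [Int.gcd_natCast_natCast, Nat.gcd_self]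
        exact hp₀.one_lt.ne'
      have h5 := hsym p₀ ((hPm _).2 ⟨hqy, hqp, hq2⟩) hq3
      rw [h4] at h5
      split_ifs at h5 <;> norm_num at h5
  have hcls : ∀ q, ∃ u : ℕ, q ∈ G → u.Coprime q ∧ u % q ≠ 1 ∧ jacobiSym u q = jacobiSym p₀ q := by
    intro q
    by_cases hq : q ∈ G
    · obtain ⟨h1, h4, -, h5⟩ := hGm q hq
      obtain ⟨u, hu⟩ := exists_class q h1 h4 p₀ h5
      exact ⟨u, fun _ => hu⟩
    · exact ⟨0, fun h => absurd h hq⟩
  choose g hg using hcls
  obtain ⟨aG, haG⟩ := Nat.chineseRemainderOfFinset g (fun q => q) G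
    (fun q hq => (hGm q hq).1.ne_zero) (fun q hq r hr hqr =>
      (Nat.coprime_primes (hGm q hq).1 (hGm r hr).1).2 hqr)
  set PG : ℕ := ∏ q ∈ G, q with hPG
  have hPG0 : PG ≠ 0 := by
    rw [hPG, prod_ne_zero_iff]
    exact fun q hq => (hGm q hq).1.ne_zero
  have hPGd : ∀ q : ℕ, q.Prime → q ∣ PG → q ∈ G := by
    intro q hq hqM
    obtain ⟨r, hr, hqr⟩ := (Prime.dvd_finsetProd_iff hq.prime _).1 hqM
    rw [(Nat.prime_dvd_prime_iff_eq hq (hGm r hr).1).1 hqr]
    exact hr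
  have h24p : ∀ q : ℕ, q.Prime → q ∣ 24 → q = 2 ∨ q = 3 := by
    intro q hq hqd
    have h1 : q ∣ 2 ^ 3 * 3 := by simpa using hqd
    rcases hq.dvd_mul.1 h1 with h4 | h4
    · left
      exact (Nat.prime_dvd_prime_iff_eq hq Nat.prime_two).1 (hq.dvd_of_dvd_pow h4)
    · right
      exact (Nat.prime_dvd_prime_iff_eq hq Nat.prime_three).1 h4
  have hmM : Nat.Coprime 24 M := by
    apply Nat.coprime_of_dvd
    intro q hq h1 h4
    have := hM5 q hq h4
    rcases h24p q hq h1 with h5 | h5 <;> omega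
  have hmMG : (24 * M).Coprime PG := by
    apply Nat.coprime_of_dvd
    intro q hq h1 h4
    obtain ⟨-, h5, h6, -⟩ := hGm q (hPGd q hq h4)
    rcases hq.dvd_mul.1 h1 with h | h
    · rcases h24p q hq h with h7 | h7 <;> omega
    · have := hMy q hq h
      omega
  obtain ⟨A₁, hA₁m, hA₁M⟩ := Nat.chineseRemainder hmM 23 a
  obtain ⟨A', hA'm, hA'G⟩ := Nat.chineseRemainder hmMG A₁ aG
  have hA'A : A' ≡ 23 [MOD 24] := (hA'm.of_dvd (Dvd.intro _ rfl)).trans hA₁m
  have hA'a : A' ≡ a [MOD M] := (hA'm.of_dvd (Dvd.intro_left _ rfl)).trans hA₁M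
  have hA'g : ∀ q ∈ G, A' ≡ g q [MOD q] := fun q hq =>
    (hA'G.of_dvd (dvd_prod_of_mem _ hq)).trans (haG q hq)
  have hA24 : A' % 24 = 23 := hA'A
  have hallow : Allowed A' (24 * M * PG) := by
    refine ⟨mul_ne_zero (mul_ne_zero (by norm_num) hM0) hPG0, ?_, ?_⟩
    · apply Nat.Coprime.mul_right
      · apply Nat.Coprime.mul_right
        · rw [Nat.Coprime, hA'A.gcd_eq]
          norm_num
        · rw [Nat.Coprime, hA'a.gcd_eq]
          exact haM
      · rw [hPG]
        apply Nat.Coprime.prod_right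
        intro q hq
        rw [Nat.Coprime, (hA'g q hq).gcd_eq]
        exact (hg q hq).1
    · intro q hq hq3
      have hqp := Nat.prime_of_mem_primeFactors hq
      have hqd := Nat.dvd_of_mem_primeFactors hq
      rcases hqp.dvd_mul.1 hqd with h | h
      · rcases hqp.dvd_mul.1 h with h | h
        · rcases h24p q hqp h with h7 | h7
          · omega
          · rw [h7]; omega
        · have h1 : A' % q = a % q := hA'a.of_dvd h
          rw [h1]
          exact haq q hqp h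
      · have hqG := hPGd q hqp h
        have h1 : A' % q = g q % q := hA'g q hqG
        rw [h1]
        exact (hg q hqG).2.1
  refine ⟨A', 24 * M * PG, hallow, ⟨M * PG, by ring⟩, by omega, ?_⟩
  intro p hp hpA
  have hpm : p ≡ 23 [MOD 24] := (hpA.of_dvd ⟨M * PG, by ring⟩).trans hA'A
  have hpM : p ≡ a [MOD M] := (hpA.of_dvd ⟨24 * PG, by ring⟩).trans hA'a
  have hpg : ∀ q ∈ G, p ≡ g q [MOD q] := fun q hq =>
    (hpA.of_dvd ((dvd_prod_of_mem (fun q => q) hq).mul_left _)).trans (hA'g q hq)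
  have hp24 : p % 24 = 23 := hpm
  have hp8 : p % 8 = 7 := by omega
  have hpo : Odd p := by rw [Nat.odd_iff]; omega
  have hsame : ∀ n : ℕ, 0 < n → n < 2 * y → jacobiSym n p = jacobiSym n p₀ := by
    intro n hn0 hny
    apply jac_same n (by exact_mod_cast hn0.ne') p p₀ hpo hp₀o (by rw [hp8, hp₀8])
    intro l hl hl2 hln
    rw [Int.natAbs_natCast] at hln
    have hly : l < 2 * y := lt_of_le_of_lt (Nat.le_of_dvd hn0 hln) hny
    by_cases hl3 : l = 3
    · subst hl3
      apply jac_of_modEq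
      have h5 : p ≡ 23 [MOD 3] := hpm.of_dvd (by norm_num)
      have h6 : (23 : ℕ) ≡ 2 [MOD 3] := by decide
      exact (h5.trans h6).trans hp₀3.symm
    · have hlG : l ∈ G := by
        rw [hG, mem_erase, hPm]
        exact ⟨hl3, hly, hl, hl2⟩
      rw [jac_of_modEq (hpg l hlG)]
      exact (hg l hlG).2.2
  refine ⟨hp8, hpM, fun q hq => ?_, fun n hn0 hny hj => ?_⟩
  · rw [hsame q (hQp q hq).pos (hQy q hq).2]
    exact hnon q hq
  · rw [hsame n hn0 hny] at hj
    exact hnr n hn0 hny hj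

end Pool.Agent.H482.LP
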