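import Mathlib
import Pool.Agent.H482.LP.L1

/-!
In every interval `[y, 2 y)` almost all primes are the least primitive root modulo many primes.
-/

set_option autoImplicit false

open Finset Filter

namespace Pool.Agent.H482.LP

open Pool.Agent.H482.RG
open Pool.Agent.Y855 (MIf)

theorem not_many (g M a : ℕ) (h : ¬ Many g M a) :
    ∀ δ : ℝ, 0 < δ → ∀ᶠ x : ℕ in atTop, ((SS g M a x).card : ℝ) ≤ δ * (x / (Real.log x) ^ 2) := by
  intro δ hδ
  unfold Many at h
  push Not at h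
  obtain ⟨X, hX⟩ := h δ hδ
  rw [eventually_atTop]
  exact ⟨X, fun x hx => (hX x hx).le⟩

theorem main_few : ∃ R : ℕ, ∀ (y M a : ℕ) (Q : Finset ℕ), (∀ q ∈ Q, q.Prime) → (∀ q ∈ Q, 5 ≤ q) →
    (∀ q ∈ Q, y ≤ q ∧ q < 2 * y) → M ≠ 0 → (∀ r : ℕ, r.Prime → r ∣ M → 2 * y ≤ r) →
    (∀ r : ℕ, r.Prime → r ∣ M → 5 ≤ r) → a.Coprime M → (∀ r : ℕ, r.Prime → r ∣ M → a % r ≠ 1) →
    (∀ q ∈ Q, ¬ Many q M a) → Q.card ≠ R := by
  classical
  obtain ⟨R, hR⟩ := few_stuck
  refine ⟨R, ?_⟩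
  intro y M a Q hQp hQ5 hQy hM0 hMy hM5 haM haq hmany hcard
  obtain ⟨A, m, hA, h24, hA8, hC⟩ := exists_cls y M a Q hQp hQ5 hQy hM0 hMy hM5 haM haq
  obtain ⟨e⟩ : Nonempty (Fin R ≃ Q) := ⟨(Q.equivFinOfCardEq hcard).symm⟩
  set q : Fin R → ℕ := fun i => (e i : ℕ) with hq
  have hqQ : ∀ i, q i ∈ Q := fun i => (e i).2
  have hqinj : Function.Injective q := fun i j h => e.injective (Subtype.ext h)
  set C : Set ℕ := {p | p % 8 = 7 ∧ p ≡ a [MOD M] ∧ (∀ q ∈ Q, jacobiSym q p = -1) ∧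
      ∀ g : ℕ, 0 < g → g < 2 * y → jacobiSym g p = -1 → g ∈ Q} with hCdef
  refine hR 7 (fun i => ⟨{(q i : ℤ)}, C⟩) A m ⟨?_, ?_, ?_, hA, h24, hA8, ?_⟩
  · -- stuck
    intro i δ hδ
    have hsub : ∀ x, Gd ⟨{(q i : ℤ)}, C⟩ x ⊆ Q.biUnion (fun g => SS g M a x) := by
      intro x p hp
      rw [mem_Gd] at hp
      obtain ⟨hpx, hpp, ⟨hp8, hpM, hpQ, hpg⟩, hps⟩ := hp
      have hfact : Fact p.Prime := ⟨hpp⟩
      have hp2 : 2 < p := by
        have := hpp.two_le
        by_contra hcon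
        have h3 : p = 2 := by omega
        rw [h3] at hp8
        omega
      have hroot : orderOf ((q i : ℕ) : ZMod p) = p - 1 := by
        have h1 := hps (q i : ℤ) (mem_singleton_self _)
        rw [Int.cast_natCast] at h1
        rcases h1 with h1 | h1
        · exfalso
          have h3 := ZMod.nonsquare_of_jacobiSym_eq_neg_one (hpQ (q i) (hqQ i))
          rw [Int.cast_natCast] at h3
          exact h3 h1
        · exact h1
      have hex : ∃ g : ℕ, 0 < g ∧ orderOf (g : ZMod p) = p - 1 :=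
        ⟨q i, (hQp _ (hqQ i)).pos, hroot⟩
      obtain ⟨h1, h2⟩ := Nat.find_spec hex
      have h3 : Nat.find hex ≤ q i := Nat.find_min' hex ⟨(hQp _ (hqQ i)).pos, hroot⟩
      have h4 : Nat.find hex < 2 * y := lt_of_le_of_lt h3 (hQy _ (hqQ i)).2
      have h5 := jac_of_root hpp hp2 _ h2
      have h6 := hpg _ h1 h4 h5
      rw [mem_biUnion]
      refine ⟨Nat.find hex, h6, ?_⟩
      unfold SS
      rw [mem_filter]
      refine ⟨hpx, hpp, hpM, h2, ?_⟩
      intro h hh0 hh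
      have h7 := Nat.find_min hex hh
      push Not at h7
      exact h7 hh0
    have hev : ∀ᶠ x : ℕ in atTop, ∀ g ∈ Q, ((SS g M a x).card : ℝ) ≤
        (δ / (Q.card + 1)) * (x / (Real.log x) ^ 2) := by
      rw [Filter.eventually_all_finset]
      intro g hg
      exact not_many g M a (hmany g hg) _ (by positivity)
    filter_upwards [hev] with x hx
    have h1 : ((Gd ⟨{(q i : ℤ)}, C⟩ x).card : ℝ) ≤ ∑ g ∈ Q, ((SS g M a x).card : ℝ) := by
      exact_mod_cast (card_le_card (hsub x)).trans card_biUnion_le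
    refine h1.trans ((sum_le_sum hx).trans ?_)
    rw [sum_const, nsmul_eq_mul]
    have h2 : (0 : ℝ) ≤ x / (Real.log x) ^ 2 := by positivity
    have h3 : (Q.card : ℝ) * (δ / (Q.card + 1)) ≤ δ := by
      rw [← mul_div_assoc, div_le_iff₀ (by positivity)]
      nlinarith
    calc (Q.card : ℝ) * (δ / (Q.card + 1) * (x / (Real.log x) ^ 2))
        = ((Q.card : ℝ) * (δ / (Q.card + 1))) * (x / (Real.log x) ^ 2) := by ring
      _ ≤ δ * (x / (Real.log x) ^ 2) := mul_le_mul_of_nonneg_right h3 h2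
  · intro i n hn
    have h1 := mem_singleton.1 hn
    rw [h1]
    exact_mod_cast (hQp _ (hqQ i)).ne_zero
  · intro b hb
    have h1 : b = fun i => (q i : ℤ) := by
      funext i
      exact mem_singleton.1 (hb i)
    rw [h1]
    exact MIf_primes R q (fun i => hQp _ (hqQ i)) hqinj
  · intro p hp hpA i
    exact hC p hp hpA

/-- at most `C` primes of an interval `[y, 2 y)` are not the least primitive root of many primes -/
theorem main : ∃ C : ℕ, ∀ y M a : ℕ, M ≠ 0 → (∀ r : ℕ, r.Prime → r ∣ M → 5 ≤ r ∧ 2 * y ≤ r) →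
    a.Coprime M → (∀ r : ℕ, r.Prime → r ∣ M → ¬ a ≡ 1 [MOD r]) →
    ∀ Q : Finset ℕ, (∀ q ∈ Q, q.Prime ∧ y ≤ q ∧ q < 2 * y ∧ ¬ Many q M a) → Q.card ≤ C := by
  classical
  obtain ⟨R, hR⟩ := main_few
  refine ⟨R + 5, ?_⟩
  intro y M a hM0 hMr haM haq Q hQ
  by_contra hcon
  push Not at hcon
  set Q' := Q.filter (fun q => 5 ≤ q) with hQ'
  have h1 : Q.card ≤ Q'.card + 5 := by
    have h2 : Q ⊆ Q' ∪ range 5 := by
      intro q hq
      rw [mem_union, mem_range, hQ', mem_filter]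
      by_cases h : 5 ≤ q
      · exact Or.inl ⟨hq, h⟩
      · exact Or.inr (by omega)
    have h3 := (card_le_card h2).trans (card_union_le _ _)
    rwa [card_range] at h3
  obtain ⟨T, hT, hTc⟩ := Finset.exists_subset_card_eq (by omega : R ≤ Q'.card)
  have hTm : ∀ q ∈ T, q ∈ Q ∧ 5 ≤ q := by
    intro q hq
    have := hT hq
    rwa [hQ', mem_filter] at this
  refine hR y M a T (fun q hq => (hQ q (hTm q hq).1).1) (fun q hq => (hTm q hq).2)
    (fun q hq => ⟨(hQ q (hTm q hq).1).2.1, (hQ q (hTm q hq).1).2.2.1⟩) hM0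
    (fun r hr hrM => (hMr r hr hrM).2) (fun r hr hrM => (hMr r hr hrM).1) haM ?_
    (fun q hq => (hQ q (hTm q hq).1).2.2.2) hTc
  intro r hr hrM h
  apply haq r hr hrM
  unfold Nat.ModEq
  rw [h, Nat.mod_eq_of_lt hr.one_lt]

end Pool.Agent.H482.LP
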